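import Mathlib
import Pool.Agent.W621.Spiral

/-!
Statements of project PC (problem MP_a217de_gt): pseudo-instability of points is not a local property
of locally connected continua.

`P` is the solid cylinder `[0,1] x disc` with a thin tube along the spiral ray of `D`: over the point
`(r, e^{i log r})` of the ray stands the circle of radius `r` centred at `-r`. The monoid `D` acts
on `P`, so `P` is pseudo-contractible, but it is not contractible. `chain e o` is the union of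
countably many copies of `P`, and `Yset a` is `[0,1] x T` with circles attached at the points
`(1, a k)`.
-/

set_option autoImplicit false

open Set Topology

namespace Pool.Agent.Y704.PC

/-- A space in which points near `x` are joined to `x` by small connected sets is locally
connected. -/
theorem lc_of_joined {Z : Type*} [TopologicalSpace Z]
    (h : ∀ x : Z, ∀ U ∈ 𝓝 x, ∃ V ∈ 𝓝 x, ∀ y ∈ V, ∃ S : Set Z,
      IsPreconnected S ∧ x ∈ S ∧ y ∈ S ∧ S ⊆ U) : LocallyConnectedSpace Z := by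
  rw [locallyConnectedSpace_iff_connected_subsets]
  intro x U hU
  obtain ⟨V, hV, hS⟩ := h x U hU
  choose! S h1 h2 h3 h4 using hS
  refine ⟨⋃ y ∈ V, S y, ?_, ?_, ?_⟩
  · refine Filter.mem_of_superset hV fun y hy => ?_
    exact mem_iUnion₂.2 ⟨y, hy, h3 y hy⟩
  · have := isPreconnected_sUnion x (S '' V) (by
      rintro s ⟨y, hy, rfl⟩
      exact h2 y hy) (by
      rintro s ⟨y, hy, rfl⟩
      exact h1 y hy)
    rwa [sUnion_image] at this
  · exact iUnion₂_subset h4

/-! ### degree -/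

/-- a closed path of degree one in the unit circle -/
def Deg1 (h : ℝ → ℂ) : Prop :=
  ∃ L : ℝ → ℝ, Continuous L ∧ (∀ θ, h θ = Complex.exp (L θ * Complex.I)) ∧
    ∀ θ, L (θ + 2 * Real.pi) = L θ + 2 * Real.pi

/-- the degree is constant in connected families -/
def StDeg : Prop :=
  ∀ (S : Type) [TopologicalSpace S] [PreconnectedSpace S] (H : S × ℝ → ℂ), Continuous H →
    (∀ s θ, ‖H (s, θ)‖ = 1) → (∀ s θ, H (s, θ + 2 * Real.pi) = H (s, θ)) →
    ∀ s₀ s₁ : S, Deg1 (fun θ => H (s₀, θ)) → Deg1 (fun θ => H (s₁, θ))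

/-- a closed path of degree one passes through every point of the circle -/
def StSurj : Prop := ∀ h : ℝ → ℂ, Deg1 h → ∀ ζ : ℂ, ‖ζ‖ = 1 → ∃ θ, h θ = ζ

/-- small parts of circles are arcs -/
def StArc : Prop :=
  ∀ (r c : ℝ) (w₀ : ℂ), ‖w₀ + r‖ = r → IsPreconnected {w : ℂ | ‖w + r‖ = r ∧ ‖w - w₀‖ ≤ c}

/-! ### the space `P` -/

/-- the solid cylinder with a tube along the spiral ray -/
def P : Set ((ℝ × ℂ) × ℂ) :=
  {x | 0 ≤ x.1.1 ∧ x.1.1 ≤ 1 ∧ ‖x.1.2‖ ≤ 1 ∧
    (x.2 = 0 ∨ (x.1 ∈ W621.Spiral.D ∧ ‖x.2 + x.1.1‖ = x.1.1))}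

/-- points of `P` over the half plane around the direction `e^{i φ}` -/
def O (φ : ℝ) : Set ((ℝ × ℂ) × ℂ) :=
  {x | x ∈ P ∧ 0 < (x.1.2 * Complex.exp (-(φ * Complex.I))).re}

/-- the circle coordinate of the strand of the tube with `φ - π < log r < φ + π` -/
noncomputable def theta (φ : ℝ) (x : (ℝ × ℂ) × ℂ) : ℂ :=
  if x.1.1 ≤ Real.exp (φ - Real.pi) then 1
  else if Real.exp (φ + Real.pi) ≤ x.1.1 then 1 else 1 + x.2 / x.1.1

def StTheta : Prop :=
  (∀ φ, ContinuousOn (theta φ) (O φ) ∧ ∀ x ∈ O φ, ‖theta φ x‖ = 1) ∧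
    ∀ (φ ψ : ℝ) (x : (ℝ × ℂ) × ℂ), |φ - ψ| < Real.pi → x ∈ O φ → x ∈ O ψ → theta φ x = theta ψ x

/-- `P` is not contractible -/
def StNull : Prop :=
  ∀ G : ↥P × unitInterval → ↥P, Continuous G → (∀ x, G (x, 0) = x) →
    (∀ x, (G (x, 1) : (ℝ × ℂ) × ℂ) = 0) → False

/-- `P` is a locally connected continuum -/
def StP : Prop := IsCompact P ∧ IsConnected P ∧ LocallyConnectedSpace ↥P

/-! ### the chain -/

/-- the union of countably many copies of `Z`: the point `o` of the next copy is the point `e` of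
the previous one; the constant sequence `e` is the limit of the copies -/
def chain {Z : Type} (e o : Z) : Set (ℕ → Z) := {x | ∀ j k, j < k → x j = e ∨ x k = o}

def StChain : Prop :=
  ∀ (Z : Type) [TopologicalSpace Z] [T2Space Z] [ConnectedSpace Z] [LocallyConnectedSpace Z]
    (e o : Z), e ≠ o → IsClosed (chain e o) ∧ ConnectedSpace ↥(chain e o) ∧
      LocallyConnectedSpace ↥(chain e o)

/-! ### circles attached to `[0,1] x T` -/

/-- `[0,1] x T` with a circle attached at each point `(1, a k)` -/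
def Yset {T : Type} (a : ℕ → T) : Set (ℝ × T × (ℕ → ℂ)) :=
  {y | 0 ≤ y.1 ∧ y.1 ≤ 1 ∧ (∀ k, ‖y.2.2 k + 1‖ = 1) ∧
    (∀ k, y.2.2 k = 0 ∨ (y.1 = 1 ∧ y.2.1 = a k)) ∧ ∀ j k, j ≠ k → y.2.2 j = 0 ∨ y.2.2 k = 0}

def StY : Prop :=
  ∀ (T : Type) [TopologicalSpace T] [T2Space T] [CompactSpace T] [ConnectedSpace T]
    [LocallyConnectedSpace T] (a : ℕ → T),
    IsCompact (Yset a) ∧ ConnectedSpace ↥(Yset a) ∧ LocallyConnectedSpace ↥(Yset a)

end Pool.Agent.Y704.PC
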