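import Mathlib
import Pool.Agent.Y704.PC.Stm

/-!
Small parts of circles are arcs.
-/

set_option autoImplicit false

open Set Topology

namespace Pool.Agent.Y704.PC

theorem t_arc : StArc := by
  intro r c w₀ hw₀
  have hr : 0 ≤ r := by rw [← hw₀]; exact norm_nonneg _
  rcases hr.eq_or_lt with h0 | hpos
  · subst h0
    have : {w : ℂ | ‖w + ((0 : ℝ) : ℂ)‖ = 0 ∧ ‖w - w₀‖ ≤ c} ⊆ {0} := by
      rintro w ⟨hw, -⟩
      simpa using hw
    exact (subsingleton_singleton.anti this).isPreconnected
  · set A : Set ℝ := {θ | θ ∈ Icc (-Real.pi) Real.pi ∧ r * (2 * |Real.sin (θ / 2)|) ≤ c} with hA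
    have pp := Real.pi_pos
    have hsin : ∀ θ ∈ Icc (-Real.pi) Real.pi, |Real.sin (θ / 2)| = Real.sin (|θ| / 2) := by
      intro θ hθ
      rcases le_total 0 θ with h | h
      · rw [abs_of_nonneg h, abs_of_nonneg]
        exact Real.sin_nonneg_of_nonneg_of_le_pi (by linarith) (by linarith [hθ.2])
      · rw [abs_of_nonpos h, abs_of_nonpos, ← Real.sin_neg]
        · congr 1; ring
        · exact Real.sin_nonpos_of_nonpos_of_neg_pi_le (by linarith) (by linarith [hθ.1])
    have hAc : OrdConnected A := by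
      refine ⟨fun x hx y hy z hz => ?_⟩
      have hzI : z ∈ Icc (-Real.pi) Real.pi := ⟨hx.1.1.trans hz.1, hz.2.trans hy.1.2⟩
      refine ⟨hzI, ?_⟩
      have habs : ∀ u ∈ A, |z| ≤ |u| → r * (2 * |Real.sin (z / 2)|) ≤ c := by
        intro u hu hzu
        refine le_trans ?_ hu.2
        rw [hsin z hzI, hsin u hu.1]
        have h1 : |u| ≤ Real.pi := abs_le.2 hu.1
        have h2 : Real.sin (|z| / 2) ≤ Real.sin (|u| / 2) :=
          Real.sin_le_sin_of_le_of_le_pi_div_two (by linarith [abs_nonneg z]) (by linarith)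
            (by linarith)
        exact mul_le_mul_of_nonneg_left (by linarith) hr
      rcases le_total 0 z with h | h
      · refine habs y hy ?_
        rw [abs_of_nonneg h, abs_of_nonneg (h.trans hz.2)]
        exact hz.2
      · refine habs x hx ?_
        rw [abs_of_nonpos h, abs_of_nonpos (hz.1.trans h)]
        linarith [hz.1]
    have hg : Continuous fun θ : ℝ => (w₀ + r) * Complex.exp (Complex.I * θ) - r := by
      have := Complex.continuous_ofReal
      fun_prop
    have hnorm : ∀ θ : ℝ, ‖(w₀ + r) * Complex.exp (Complex.I * θ) - r - w₀‖ =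
        r * (2 * |Real.sin (θ / 2)|) := by
      intro θ
      rw [show (w₀ + r) * Complex.exp (Complex.I * θ) - r - w₀ =
        (w₀ + r) * (Complex.exp (Complex.I * θ) - 1) by ring, norm_mul, hw₀,
        Complex.norm_exp_I_mul_ofReal_sub_one, norm_mul, Real.norm_eq_abs, Real.norm_eq_abs,
        abs_of_pos (zero_lt_two' ℝ)]
    convert hAc.isPreconnected.image _ hg.continuousOn using 1
    apply Subset.antisymm
    · rintro w ⟨hw1, hw2⟩
      have hne : w₀ + r ≠ 0 := by
        intro h
        rw [h, norm_zero] at hw₀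
        exact hpos.ne hw₀
      set q : ℂ := (w + r) / (w₀ + r) with hq
      have hq1 : ‖q‖ = 1 := by
        rw [hq, norm_div, hw1, hw₀, div_self hpos.ne']
      have hq2 : Complex.exp (Complex.I * Complex.arg q) = q := by
        have := Complex.norm_mul_exp_arg_mul_I q
        rw [hq1] at this
        rw [mul_comm Complex.I]
        simpa using this
      have hq3 : (w₀ + r) * Complex.exp (Complex.I * Complex.arg q) - r = w := by
        rw [hq2, hq, mul_div_cancel₀ _ hne]
        ring
      refine ⟨Complex.arg q, ⟨⟨(Complex.neg_pi_lt_arg q).le, Complex.arg_le_pi q⟩, ?_⟩, hq3⟩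
      rw [← hnorm, hq3]
      exact hw2
    · rintro _ ⟨θ, hθ, rfl⟩
      refine ⟨?_, ?_⟩
      · show ‖(w₀ + r) * Complex.exp (Complex.I * θ) - r + r‖ = r
        rw [sub_add_cancel, norm_mul, hw₀, mul_comm Complex.I, Complex.norm_exp_ofReal_mul_I,
          mul_one]
      · show ‖(w₀ + r) * Complex.exp (Complex.I * θ) - r - w₀‖ ≤ c
        rw [hnorm]
        exact hθ.2

end Pool.Agent.Y704.PC
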