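import Mathlib
import Pool.Agent.W621.Spiral
import Pool.Agent.Y704.PC.Stm

/-!
The action of the monoid `Q` on the chain of copies of `P`, and the continuum `X = [0,1] x chain`.
-/

set_option autoImplicit false

open Set Topology

namespace Pool.Agent.Y704.PC

theorem act_mem {d : ℝ × ℂ} (hd : d ∈ W621.Spiral.D) {x : (ℝ × ℂ) × ℂ} (hx : x ∈ P) :
    ((d * x.1, (d.1 : ℂ) * x.2) : (ℝ × ℂ) × ℂ) ∈ P := by
  obtain ⟨h0, h1, h2, h3⟩ := hx
  obtain ⟨g0, g1, g2, g3⟩ := id hd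
  refine ⟨mul_nonneg g0 h0, mul_le_one₀ g1 h0 h1, ?_, ?_⟩
  · show ‖d.2 * x.1.2‖ ≤ 1
    rw [norm_mul]
    exact mul_le_one₀ g2 (norm_nonneg _) h2
  · rcases h3 with h | ⟨h, h'⟩
    · left
      show (d.1 : ℂ) * x.2 = 0
      rw [h, mul_zero]
    · right
      refine ⟨W621.Spiral.mul_mem_D hd h, ?_⟩
      show ‖(d.1 : ℂ) * x.2 + ((d.1 * x.1.1 : ℝ) : ℂ)‖ = d.1 * x.1.1
      rw [show (d.1 : ℂ) * x.2 + ((d.1 * x.1.1 : ℝ) : ℂ) = (d.1 : ℂ) * (x.2 + x.1.1) by
        push_cast; ring]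
      rw [norm_mul, h', Complex.norm_real, Real.norm_eq_abs, abs_of_nonneg g0]

/-- the end of the axis of the tube -/
noncomputable def e1 : ↥P := ⟨(1, 0), by
  refine ⟨zero_le_one, le_rfl, ?_, Or.inl rfl⟩
  show ‖(1 : ℂ)‖ ≤ 1
  simp⟩

/-- the centre of the bottom -/
noncomputable def o1 : ↥P := ⟨0, by
  refine ⟨le_rfl, zero_le_one, ?_, Or.inl rfl⟩
  show ‖(0 : ℂ)‖ ≤ 1
  simp⟩

theorem e1_ne_o1 : e1 ≠ o1 := by
  intro h
  have h1 : ((1 : ℝ × ℂ), (0 : ℂ)) = (0 : (ℝ × ℂ) × ℂ) := congrArg Subtype.val h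
  have h2 : (1 : ℝ) = 0 := congrArg (fun x : (ℝ × ℂ) × ℂ => x.1.1) h1
  exact one_ne_zero h2

/-- the action on `P` -/
noncomputable def actP (p : ↥W621.Spiral.D × ↥P) : ↥P :=
  ⟨(p.1.1 * p.2.1.1, (p.1.1.1 : ℂ) * p.2.1.2), act_mem p.1.2 p.2.2⟩

theorem continuous_actP : Continuous actP := by
  unfold actP
  refine Continuous.subtype_mk ?_ _
  have h1 : Continuous fun p : ↥W621.Spiral.D × ↥P => ((p.1.1.1 : ℝ) : ℂ) :=
    Complex.continuous_ofReal.comp
      (continuous_fst.comp (continuous_subtype_val.comp continuous_fst))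
  have h2 : Continuous fun p : ↥W621.Spiral.D × ↥P => (p.2.1 : (ℝ × ℂ) × ℂ) :=
    continuous_subtype_val.comp continuous_snd
  have h3 : Continuous fun p : ↥W621.Spiral.D × ↥P => (p.1.1 : ℝ × ℂ) :=
    continuous_subtype_val.comp continuous_fst
  exact (h3.mul (continuous_fst.comp h2)).prodMk (h1.mul (continuous_snd.comp h2))

theorem actP_one (x : ↥P) : actP (⟨1, W621.Spiral.one_mem_D⟩, x) = x := by
  apply Subtype.ext
  show ((1 : ℝ × ℂ) * x.1.1, (((1 : ℝ × ℂ).1 : ℝ) : ℂ) * x.1.2) = x.1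
  simp

theorem actP_zero (x : ↥P) : actP (⟨0, W621.Spiral.zero_mem_D⟩, x) = o1 := by
  apply Subtype.ext
  show ((0 : ℝ × ℂ) * x.1.1, (((0 : ℝ × ℂ).1 : ℝ) : ℂ) * x.1.2) = (0 : (ℝ × ℂ) × ℂ)
  simp

theorem actP_o (d : ↥W621.Spiral.D) : actP (d, o1) = o1 := by
  apply Subtype.ext
  show (d.1 * (0 : (ℝ × ℂ) × ℂ).1, (d.1.1 : ℂ) * (0 : (ℝ × ℂ) × ℂ).2) = (0 : (ℝ × ℂ) × ℂ)
  simp

theorem actP_eq_e {d : ↥W621.Spiral.D} {x : ↥P} (h : actP (d, x) = e1) : (d : ℝ × ℂ) = 1 := by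
  have h1 : (d.1 * x.1.1, (d.1.1 : ℂ) * x.1.2) = ((1 : ℝ × ℂ), (0 : ℂ)) := congrArg Subtype.val h
  have h2 : d.1.1 * x.1.1.1 = 1 := congrArg (fun x : (ℝ × ℂ) × ℂ => x.1.1) h1
  apply W621.Spiral.eq_one_of_fst d.2
  refine le_antisymm d.2.2.1 ?_
  have := mul_le_mul_of_nonneg_left x.2.2.1 d.2.1
  rw [mul_one] at this
  exact h2.symm.le.trans this

/-! ### the action on the chain -/

/-- the union of countably many copies of `P` -/
abbrev Qh : Type := ↥(chain e1 o1)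

/-- the end of the chain -/
noncomputable def eh : Qh := ⟨fun _ => e1, fun _ _ _ => Or.inl rfl⟩

/-- the action of `Q` on the chain -/
noncomputable def actQ (p : ↥W621.Spiral.Q × Qh) : Qh :=
  ⟨fun k => actP (⟨p.1.1 k, p.1.2.1 k⟩, p.2.1 k), by
    intro j k hjk
    rcases p.1.2.2 j k hjk with h | h
    · rcases p.2.2 j k hjk with h' | h'
      · left
        show actP (⟨p.1.1 j, p.1.2.1 j⟩, p.2.1 j) = e1
        rw [h']
        have : (⟨p.1.1 j, p.1.2.1 j⟩ : ↥W621.Spiral.D) = ⟨1, W621.Spiral.one_mem_D⟩ :=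
          Subtype.ext h
        rw [this, actP_one]
      · right
        show actP (⟨p.1.1 k, p.1.2.1 k⟩, p.2.1 k) = o1
        rw [h', actP_o]
    · right
      show actP (⟨p.1.1 k, p.1.2.1 k⟩, p.2.1 k) = o1
      have : (⟨p.1.1 k, p.1.2.1 k⟩ : ↥W621.Spiral.D) = ⟨0, W621.Spiral.zero_mem_D⟩ :=
        Subtype.ext h
      rw [this, actP_zero]⟩

theorem continuous_actQ : Continuous actQ := by
  unfold actQ
  refine Continuous.subtype_mk ?_ _
  refine continuous_pi fun k => ?_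
  refine continuous_actP.comp ?_
  refine Continuous.prodMk ?_ ?_
  · refine Continuous.subtype_mk ?_ _
    exact (continuous_apply k).comp (continuous_subtype_val.comp continuous_fst)
  · exact (continuous_apply k).comp (continuous_subtype_val.comp continuous_snd)

theorem actQ_one (x : Qh) : actQ (⟨1, W621.Spiral.one_mem_Q⟩, x) = x := by
  apply Subtype.ext
  funext k
  exact actP_one (x.1 k)

theorem actQ_eq {q : ↥W621.Spiral.Q} {x : Qh} (h : actQ (q, x) = eh) :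
    q = ⟨1, W621.Spiral.one_mem_Q⟩ := by
  apply Subtype.ext
  funext k
  have h1 : actP (⟨q.1 k, q.2.1 k⟩, x.1 k) = e1 := congrFun (congrArg Subtype.val h) k
  exact actP_eq_e h1

/-! ### the continuum `X` -/

/-- the product of an arc and the chain -/
abbrev X : Type := ↥(Icc (0 : ℝ) 1) × Qh

/-- the motion in `X` -/
noncomputable def F (z : X × ↥W621.Spiral.Q) : X := (z.1.1, actQ (z.2, z.1.2))

theorem continuous_F : Continuous F := by
  unfold F
  refine (continuous_fst.comp continuous_fst).prodMk (continuous_actQ.comp ?_)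
  exact continuous_snd.prodMk (continuous_snd.comp continuous_fst)

theorem F_one (z : X) : F (z, ⟨1, W621.Spiral.one_mem_Q⟩) = z := by
  unfold F
  rw [actQ_one]

/-- the point of `X` -/
noncomputable def x0 : X := (⟨1 / 2, by norm_num, by norm_num⟩, eh)

theorem F_ne (z : X) (c : ↥W621.Spiral.Q) (hc : c ≠ ⟨1, W621.Spiral.one_mem_Q⟩) :
    F (z, c) ≠ x0 := by
  intro h
  apply hc
  exact actQ_eq (congrArg Prod.snd h)

end Pool.Agent.Y704.PC
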