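import Mathlib
import Pool.Agent.W621.Spiral
import Pool.Agent.Y704.PC.Stm
import Pool.Agent.Y704.PC.Act

/-!
The continuum `Y` (circles attached to `[0,1] x chain` at a dense sequence of points of the top) and
the proof that nothing moves off the point `(1/2, eh)` in `Y`.
-/

set_option autoImplicit false

open Set Topology Filter

namespace Pool.Agent.Y704.PC

/-! ### embeddings of `P` in the chain -/

/-- the `n`th copy of `P` -/
noncomputable def embP (n : ℕ) (p : ↥P) : Qh :=
  ⟨fun k => if k < n then e1 else if k = n then p else o1, by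
    intro j k hjk
    by_cases h1 : j < n
    · left; simp [h1]
    · right
      have h2 : ¬ k < n := by omega
      have h3 : ¬ k = n := by omega
      simp [h2, h3]⟩

theorem continuous_embP (n : ℕ) : Continuous (embP n) := by
  unfold embP
  refine Continuous.subtype_mk ?_ _
  refine continuous_pi fun k => ?_
  by_cases h1 : k < n
  · simp only [h1, if_true]; exact continuous_const
  · by_cases h2 : k = n
    · simp only [h2, lt_irrefl, if_false, if_true]; exact continuous_id
    · simp only [h1, h2, if_false]; exact continuous_const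

theorem embP_self (n : ℕ) (p : ↥P) : (embP n p).1 n = p := by simp [embP]

theorem embP_lt {n k : ℕ} (h : k < n) (p : ↥P) : (embP n p).1 k = e1 := by simp [embP, h]

/-- copies with large numbers are in a given neighbourhood of the end -/
theorem embP_near {W : Set Qh} (hW : W ∈ 𝓝 eh) : ∃ N : ℕ, ∀ n, N ≤ n → ∀ p, embP n p ∈ W := by
  rw [nhds_subtype_eq_comap, mem_comap] at hW
  obtain ⟨V, hV, hVW⟩ := hW
  rw [nhds_pi, Filter.mem_pi'] at hV
  obtain ⟨I, t, ht, hI⟩ := hV
  refine ⟨I.sup id + 1, fun n hn p => hVW ?_⟩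
  apply hI
  intro i hi
  have h1 : i ≤ I.sup id := Finset.le_sup (f := id) hi
  have h2 : (embP n p).1 i = e1 := embP_lt (by omega) p
  show (embP n p).1 i ∈ t i
  rw [h2]
  exact mem_of_mem_nhds (ht i)

/-! ### the end of the chain cannot be moved along a homotopy of the identity -/

theorem end_fixed (hN : StNull) (g : ↥(Icc (0 : ℝ) 1) × Qh → Qh) (hg : Continuous g)
    (h1 : ∀ q, g (⟨1, zero_le_one, le_rfl⟩, q) = q) (t : ↥(Icc (0 : ℝ) 1)) : g (t, eh) = eh := by
  by_contra hne
  obtain ⟨m, hm⟩ : ∃ m, (g (t, eh)).1 m ≠ e1 := by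
    by_contra hcon
    push Not at hcon
    exact hne (Subtype.ext (funext hcon))
  have hopen : {q : Qh | (g (t, q)).1 m ≠ e1} ∈ 𝓝 eh := by
    have hc : Continuous fun q : Qh => (g (t, q)).1 m :=
      (continuous_apply m).comp (continuous_subtype_val.comp
        (hg.comp (continuous_const.prodMk continuous_id)))
    exact (isOpen_ne_fun hc continuous_const).mem_nhds hm
  obtain ⟨N, hN'⟩ := embP_near hopen
  set n := max N (m + 1) with hn
  have hnN : N ≤ n := le_max_left _ _
  have hnm : m < n := by have := le_max_right N (m + 1); omega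
  -- the path from `1` to `t`
  let τ : unitInterval → ↥(Icc (0 : ℝ) 1) := fun s =>
    ⟨1 - s.1 * (1 - t.1), by
      have := s.2.1; have := s.2.2; have := t.2.1; have := t.2.2
      constructor <;> nlinarith⟩
  have hτ : Continuous τ := by
    refine Continuous.subtype_mk ?_ _
    have := continuous_subtype_val (p := fun x : ℝ => x ∈ unitInterval)
    fun_prop
  refine hN (fun z => (g (τ z.2, embP n z.1)).1 n) ?_ ?_ ?_
  · refine (continuous_apply n).comp (continuous_subtype_val.comp (hg.comp ?_))
    exact (hτ.comp continuous_snd).prodMk ((continuous_embP n).comp continuous_fst)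
  · intro x
    have h0 : τ 0 = ⟨1, zero_le_one, le_rfl⟩ := by
      apply Subtype.ext
      show 1 - ((0 : unitInterval) : ℝ) * (1 - t.1) = 1
      simp
    show (g (τ 0, embP n x)).1 n = x
    rw [h0, h1, embP_self]
  · intro x
    have h0 : τ 1 = t := by
      apply Subtype.ext
      show 1 - ((1 : unitInterval) : ℝ) * (1 - t.1) = t.1
      simp
    have h2 : (g (t, embP n x)).1 m ≠ e1 := hN' n hnN x
    show (((g (τ 1, embP n x)).1 n : ↥P) : (ℝ × ℂ) × ℂ) = 0
    rw [h0]
    rcases (g (t, embP n x)).2 m n hnm with h | h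
    · exact absurd h h2
    · rw [h]; rfl

/-! ### the circles -/

section Anchor

variable (a : ℕ → Qh)

/-- the base of `Y` -/
noncomputable def base (x : ↥(Icc (0 : ℝ) 1) × Qh) : ↥(Yset a) :=
  ⟨(x.1.1, x.2, 0), x.1.2.1, x.1.2.2, fun k => by simp, fun k => Or.inl rfl,
    fun j k _ => Or.inl rfl⟩

theorem continuous_base : Continuous (base a) := by
  unfold base
  refine Continuous.subtype_mk ?_ _
  exact (continuous_subtype_val.comp continuous_fst).prodMk
    (continuous_snd.prodMk continuous_const)

/-- the circle at `(1, a k)` -/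
noncomputable def circ (k : ℕ) (θ : ℝ) : ↥(Yset a) :=
  ⟨(1, a k, Pi.single k (Complex.exp (θ * Complex.I) - 1)), by
    refine ⟨zero_le_one, le_rfl, fun j => ?_, fun j => ?_, fun i j hij => ?_⟩
    · show ‖(Pi.single k (Complex.exp (θ * Complex.I) - 1) : ℕ → ℂ) j + 1‖ = 1
      by_cases h : j = k
      · subst h
        rw [Pi.single_eq_same, sub_add_cancel, Complex.norm_exp_ofReal_mul_I]
      · rw [Pi.single_eq_of_ne h]; simp
    · by_cases h : j = k
      · subst h
        exact Or.inr ⟨rfl, rfl⟩
      · left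
        exact Pi.single_eq_of_ne h _
    · by_cases h : i = k
      · right
        exact Pi.single_eq_of_ne (fun h' => hij (h.trans h'.symm)) _
      · left
        exact Pi.single_eq_of_ne h _⟩

theorem continuous_circ (k : ℕ) : Continuous (circ a k) := by
  unfold circ
  refine Continuous.subtype_mk ?_ _
  refine continuous_const.prodMk (continuous_const.prodMk ?_)
  refine continuous_pi fun j => ?_
  by_cases h : j = k
  · subst h
    simp only [Pi.single_eq_same]
    have := Complex.continuous_ofReal
    fun_prop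
  · simp only [Pi.single_eq_of_ne h]
    exact continuous_const

variable {a}

theorem anchor (hD : StDeg) (hS : StSurj) {C : Type} [TopologicalSpace C] [PreconnectedSpace C]
    (c₀ : C) (G : ↥(Yset a) × C → ↥(Yset a)) (hG : Continuous G) (hG0 : ∀ z, G (z, c₀) = z)
    (k : ℕ) (c : C) : ∃ θ : ℝ, (G (circ a k θ, c)).1.1 = 1 ∧ (G (circ a k θ, c)).1.2.1 = a k := by
  let H : C × ℝ → ℂ := fun p => (G (circ a k p.2, p.1)).1.2.2 k + 1
  have hH : Continuous H := by
    refine Continuous.add ?_ continuous_const
    refine (continuous_apply k).comp (continuous_snd.comp (continuous_snd.comp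
      (continuous_subtype_val.comp (hG.comp ?_))))
    exact ((continuous_circ a k).comp continuous_snd).prodMk continuous_fst
  have h1 : ∀ s θ, ‖H (s, θ)‖ = 1 := fun s θ => (G (circ a k θ, s)).2.2.2.1 k
  have hper : ∀ θ : ℝ, circ a k (θ + 2 * Real.pi) = circ a k θ := by
    intro θ
    apply Subtype.ext
    show ((1 : ℝ), a k, (Pi.single k (Complex.exp (((θ + 2 * Real.pi : ℝ) : ℂ) * Complex.I) - 1) :
      ℕ → ℂ)) = (1, a k, Pi.single k (Complex.exp (θ * Complex.I) - 1))
    have : Complex.exp (((θ + 2 * Real.pi : ℝ) : ℂ) * Complex.I) =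
        Complex.exp (θ * Complex.I) := by
      rw [show ((θ + 2 * Real.pi : ℝ) : ℂ) * Complex.I =
        (θ : ℂ) * Complex.I + 2 * Real.pi * Complex.I by push_cast; ring]
      exact Complex.exp_periodic _
    rw [this]
  have h2 : ∀ s θ, H (s, θ + 2 * Real.pi) = H (s, θ) := by
    intro s θ
    show (G (circ a k (θ + 2 * Real.pi), s)).1.2.2 k + 1 = (G (circ a k θ, s)).1.2.2 k + 1
    rw [hper]
  have h0 : Deg1 (fun θ => H (c₀, θ)) := by
    refine ⟨id, continuous_id, fun θ => ?_, fun θ => rfl⟩
    show (G (circ a k θ, c₀)).1.2.2 k + 1 = _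
    rw [hG0]
    show (Pi.single k (Complex.exp (θ * Complex.I) - 1) : ℕ → ℂ) k + 1 = _
    rw [Pi.single_eq_same, sub_add_cancel]
    rfl
  have h3 := hD C H hH h1 h2 c₀ c h0
  obtain ⟨θ, hθ⟩ := hS _ h3 (-1) (by simp)
  refine ⟨θ, ?_⟩
  have h4 : (G (circ a k θ, c)).1.2.2 k + 1 = -1 := hθ
  rcases (G (circ a k θ, c)).2.2.2.2.1 k with h | h
  · rw [h] at h4
    norm_num at h4
  · exact h

/-- For a sequence that returns to each point of a dense sequence infinitely often the points of the
top of the base keep their first two coordinates. -/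
theorem top_fixed (hD : StDeg) (hS : StSurj) (u : ℕ → Qh) (hu : DenseRange u)
    (ha : ∀ j i, a (Nat.pair j i) = u j) {C : Type} [TopologicalSpace C] [PreconnectedSpace C]
    (c₀ : C) (G : ↥(Yset a) × C → ↥(Yset a)) (hG : Continuous G) (hG0 : ∀ z, G (z, c₀) = z)
    (c : C) (q : Qh) : (G (base a (⟨1, zero_le_one, le_rfl⟩, q), c)).1.1 = 1 ∧
      (G (base a (⟨1, zero_le_one, le_rfl⟩, q), c)).1.2.1 = q := by
  -- the points of the dense sequence
  have key : ∀ j, (G (base a (⟨1, zero_le_one, le_rfl⟩, u j), c)).1.1 = 1 ∧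
      (G (base a (⟨1, zero_le_one, le_rfl⟩, u j), c)).1.2.1 = u j := by
    intro j
    choose θ h1 h2 using fun i => anchor hD hS c₀ G hG hG0 (Nat.pair j i) c
    have hlim : Tendsto (fun i => circ a (Nat.pair j i) (θ i)) atTop
        (𝓝 (base a (⟨1, zero_le_one, le_rfl⟩, u j))) := by
      rw [tendsto_subtype_rng]
      refine Tendsto.prodMk_nhds tendsto_const_nhds (Tendsto.prodMk_nhds ?_ ?_)
      · refine tendsto_const_nhds.congr fun i => ?_
        exact (ha j i).symm
      · rw [tendsto_pi_nhds]
        intro m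
        refine tendsto_const_nhds.congr' ?_
        filter_upwards [eventually_gt_atTop m] with i hi
        have : m ≠ Nat.pair j i := by
          have := Nat.right_le_pair j i
          omega
        show (0 : ℂ) = (Pi.single (Nat.pair j i) (Complex.exp (θ i * Complex.I) - 1) : ℕ → ℂ) m
        rw [Pi.single_eq_of_ne this]
    have hlim2 : Tendsto (fun i => G (circ a (Nat.pair j i) (θ i), c)) atTop
        (𝓝 (G (base a (⟨1, zero_le_one, le_rfl⟩, u j), c))) := by
      refine (hG.tendsto _).comp ?_
      exact Tendsto.prodMk_nhds hlim tendsto_const_nhds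
    constructor
    · have h3 : Tendsto (fun i => (G (circ a (Nat.pair j i) (θ i), c)).1.1) atTop
          (𝓝 (G (base a (⟨1, zero_le_one, le_rfl⟩, u j), c)).1.1) :=
        ((continuous_fst.comp continuous_subtype_val).tendsto _).comp hlim2
      refine tendsto_nhds_unique h3 ?_
      simp only [h1]
      exact tendsto_const_nhds
    · have h3 : Tendsto (fun i => (G (circ a (Nat.pair j i) (θ i), c)).1.2.1) atTop
          (𝓝 (G (base a (⟨1, zero_le_one, le_rfl⟩, u j), c)).1.2.1) :=
        ((continuous_fst.comp (continuous_snd.comp continuous_subtype_val)).tendsto _).comp hlim2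
      refine tendsto_nhds_unique h3 ?_
      simp only [h2, ha]
      exact tendsto_const_nhds
  have hc : Continuous fun q : Qh => G (base a (⟨1, zero_le_one, le_rfl⟩, q), c) :=
    hG.comp (((continuous_base a).comp (continuous_const.prodMk continuous_id)).prodMk
      continuous_const)
  have hcl : IsClosed {q : Qh | (G (base a (⟨1, zero_le_one, le_rfl⟩, q), c)).1.1 = 1 ∧
      (G (base a (⟨1, zero_le_one, le_rfl⟩, q), c)).1.2.1 = q} := by
    refine IsClosed.inter ?_ ?_
    · exact isClosed_eq (continuous_fst.comp (continuous_subtype_val.comp hc)) continuous_const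
    · exact isClosed_eq (continuous_fst.comp (continuous_snd.comp
        (continuous_subtype_val.comp hc))) continuous_id
  have huniv : closure (range u) ⊆ {q : Qh | (G (base a (⟨1, zero_le_one, le_rfl⟩, q), c)).1.1 = 1 ∧
      (G (base a (⟨1, zero_le_one, le_rfl⟩, q), c)).1.2.1 = q} := by
    refine closure_minimal ?_ hcl
    rintro _ ⟨j, rfl⟩
    exact key j
  exact huniv (hu q)

/-- the point of `Y` -/
noncomputable def y0 (a : ℕ → Qh) : ↥(Yset a) := base a x0

/-- Nothing moves off `y0`. -/
theorem hits (hD : StDeg) (hS : StSurj) (hN : StNull) (u : ℕ → Qh) (hu : DenseRange u)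
    (ha : ∀ j i, a (Nat.pair j i) = u j) {C : Type} [TopologicalSpace C] [PreconnectedSpace C]
    (c₀ : C) [hne : (𝓝[≠] c₀).NeBot] (G : ↥(Yset a) × C → ↥(Yset a)) (hG : Continuous G)
    (hG0 : ∀ z, G (z, c₀) = z) : ∃ (z : ↥(Yset a)) (c : C), c ≠ c₀ ∧ G (z, c) = y0 a := by
  have htop := fun c q => top_fixed hD hS u hu ha c₀ G hG hG0 c q
  -- the end of the chain is fixed
  have hend : ∀ (c : C) (t : ↥(Icc (0 : ℝ) 1)), (G (base a (t, eh), c)).1.2.1 = eh := by
    intro c t
    refine end_fixed hN (fun z => (G (base a z, c)).1.2.1) ?_ (fun q => (htop c q).2) t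
    refine continuous_fst.comp (continuous_snd.comp (continuous_subtype_val.comp (hG.comp ?_)))
    exact (continuous_base a).prodMk continuous_const
  -- the first coordinate of the image of `(0, eh)` is small
  have hsmall : ∀ᶠ c in 𝓝 c₀, (G (base a (⟨0, le_rfl, zero_le_one⟩, eh), c)).1.1 < 1 / 2 := by
    have hc : Continuous fun c : C => (G (base a (⟨0, le_rfl, zero_le_one⟩, eh), c)).1.1 :=
      continuous_fst.comp (continuous_subtype_val.comp (hG.comp
        (continuous_const.prodMk continuous_id)))
    refine (isOpen_lt hc continuous_const).mem_nhds ?_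
    show (G (base a (⟨0, le_rfl, zero_le_one⟩, eh), c₀)).1.1 < 1 / 2
    rw [hG0]
    show (0 : ℝ) < 1 / 2
    norm_num
  obtain ⟨c, hc, hcc⟩ := ((hsmall.filter_mono nhdsWithin_le_nhds).and
    (self_mem_nhdsWithin : {c₀}ᶜ ∈ 𝓝[≠] c₀)).exists
  -- intermediate value
  have hcont : Continuous fun t : ↥(Icc (0 : ℝ) 1) => (G (base a (t, eh), c)).1.1 := by
    refine continuous_fst.comp (continuous_subtype_val.comp (hG.comp ?_))
    exact ((continuous_base a).comp (continuous_id.prodMk continuous_const)).prodMk
      continuous_const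
  have hpre : PreconnectedSpace ↥(Icc (0 : ℝ) 1) :=
    Subtype.preconnectedSpace isPreconnected_Icc
  obtain ⟨t, ht⟩ := mem_range_of_exists_le_of_exists_ge hcont
    ⟨⟨0, le_rfl, zero_le_one⟩, hc.le⟩
    ⟨⟨1, zero_le_one, le_rfl⟩, by rw [(htop c eh).1]; norm_num⟩
  refine ⟨base a (t, eh), c, hcc, ?_⟩
  have ht' : (G (base a (t, eh), c)).1.1 = 1 / 2 := ht
  have hz : (G (base a (t, eh), c)).1.2.2 = 0 := by
    funext k
    rcases (G (base a (t, eh), c)).2.2.2.2.1 k with h | h
    · exact h
    · rw [ht'] at h
      have := h.1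
      norm_num at this
  apply Subtype.ext
  exact Prod.ext ht' (Prod.ext (hend c t) hz)

end Anchor

end Pool.Agent.Y704.PC
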