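import Mathlib
import Pool.Agent.W621.Spiral
import Pool.Agent.Y704.PC.Stm
import Pool.Agent.Y704.PC.Act
import Pool.Agent.Y704.PC.Hits

/-!
Assembly: the two locally connected continua.
-/

set_option autoImplicit false

open Set Topology Filter

namespace Pool.Agent.Y704.PC

/-- the common neighbourhood -/
noncomputable def loc (a : ℕ → Qh) : {p : X | (p.1 : ℝ) < 1} ≃ₜ {p : ↥(Yset a) | p.1.1 < 1} where
  toFun p := ⟨base a p.1, p.2⟩
  invFun p := ⟨(⟨p.1.1.1, p.1.2.1, p.1.2.2.1⟩, p.1.1.2.1), p.2⟩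
  left_inv p := rfl
  right_inv p := by
    apply Subtype.ext
    apply Subtype.ext
    have hz : p.1.1.2.2 = 0 := by
      funext k
      rcases p.1.2.2.2.2.1 k with h | h
      · exact h
      · exact absurd h.1 (ne_of_lt p.2)
    exact Prod.ext rfl (Prod.ext rfl hz.symm)
  continuous_toFun := by
    refine Continuous.subtype_mk ?_ _
    exact (continuous_base a).comp continuous_subtype_val
  continuous_invFun := by
    refine Continuous.subtype_mk ?_ _
    refine Continuous.prodMk ?_ ?_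
    · refine Continuous.subtype_mk ?_ _
      exact continuous_fst.comp (continuous_subtype_val.comp continuous_subtype_val)
    · exact continuous_fst.comp (continuous_snd.comp
        (continuous_subtype_val.comp continuous_subtype_val))

theorem lc_Icc : LocallyConnectedSpace ↥(Icc (0 : ℝ) 1) := by
  refine lc_of_joined fun x U hU => ?_
  obtain ⟨ε, hε, hεU⟩ := Metric.mem_nhds_iff.1 hU
  refine ⟨Metric.ball x ε, Metric.ball_mem_nhds x hε, fun y hy => ?_⟩
  refine ⟨projIcc 0 1 zero_le_one '' uIcc x.1 y.1,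
    isPreconnected_uIcc.image _ continuous_projIcc.continuousOn,
    ⟨x.1, left_mem_uIcc, projIcc_val _ x⟩, ⟨y.1, right_mem_uIcc, projIcc_val _ y⟩, ?_⟩
  rintro _ ⟨z, hz, rfl⟩
  apply hεU
  have hz1 : z ∈ Icc (0 : ℝ) 1 := (ordConnected_Icc.uIcc_subset x.2 y.2) hz
  rw [projIcc_of_mem zero_le_one hz1, Metric.mem_ball]
  have hy' : |y.1 - x.1| < ε := hy
  show |z - x.1| < ε
  exact (abs_sub_left_of_mem_uIcc hz).trans_lt hy'

/-- The two continua. -/
theorem main (hD : StDeg) (hS : StSurj) (hN : StNull) (hP : StP) (hC : StChain) (hY : StY) :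
    ∃ (a : ℕ → Qh), (CompactSpace X ∧ ConnectedSpace X ∧ LocallyConnectedSpace X) ∧
      (CompactSpace ↥(Yset a) ∧ ConnectedSpace ↥(Yset a) ∧ LocallyConnectedSpace ↥(Yset a)) ∧
      ∀ (C : Type) [TopologicalSpace C] [PreconnectedSpace C] (c₀ : C) [(𝓝[≠] c₀).NeBot]
        (G : ↥(Yset a) × C → ↥(Yset a)), Continuous G → (∀ z, G (z, c₀) = z) →
        ∃ (z : ↥(Yset a)) (c : C), c ≠ c₀ ∧ G (z, c) = y0 a := by
  obtain ⟨hP1, hP2, hP3⟩ := hP
  have i1 : CompactSpace ↥P := isCompact_iff_compactSpace.1 hP1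
  have i2 : ConnectedSpace ↥P := isConnected_iff_connectedSpace.1 hP2
  obtain ⟨hC1, hC2, hC3⟩ := hC ↥P e1 o1 e1_ne_o1
  have i3 : CompactSpace Qh := isCompact_iff_compactSpace.1 hC1.isCompact
  have i4 : ConnectedSpace ↥(Icc (0 : ℝ) 1) :=
    isConnected_iff_connectedSpace.1 (isConnected_Icc zero_le_one)
  have i5 : LocallyConnectedSpace ↥(Icc (0 : ℝ) 1) := lc_Icc
  let u : ℕ → Qh := TopologicalSpace.denseSeq Qh
  let a : ℕ → Qh := fun n => u (Nat.unpair n).1
  obtain ⟨hY1, hY2, hY3⟩ := hY Qh a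
  refine ⟨a, ⟨inferInstance, inferInstance, inferInstance⟩,
    ⟨isCompact_iff_compactSpace.1 hY1, hY2, hY3⟩, ?_⟩
  intro C _ _ c₀ _ G hG hG0
  refine hits hD hS hN u (TopologicalSpace.denseRange_denseSeq Qh) (fun j i => ?_) c₀ G hG hG0
  show u (Nat.unpair (Nat.pair j i)).1 = u j
  rw [Nat.unpair_pair]

end Pool.Agent.Y704.PC
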