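import Mathlib
import Pool.Agent.Y704.PC.Stm

/-!
Local connectedness of subspaces, in terms of sets of the ambient space.
-/

set_option autoImplicit false

open Set Topology

namespace Pool.Agent.Y704.PC

theorem lc_subtype {E : Type*} [TopologicalSpace E] {A : Set E}
    (h : ∀ x ∈ A, ∀ U ∈ 𝓝 x, ∃ V ∈ 𝓝 x, ∀ y ∈ V, y ∈ A → ∃ S : Set E,
      IsPreconnected S ∧ S ⊆ A ∧ x ∈ S ∧ y ∈ S ∧ S ⊆ U) : LocallyConnectedSpace ↥A := by
  refine lc_of_joined fun x U hU => ?_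
  rw [nhds_subtype_eq_comap, Filter.mem_comap] at hU
  obtain ⟨U', hU', hUU⟩ := hU
  obtain ⟨V, hV, hS⟩ := h x.1 x.2 U' hU'
  refine ⟨Subtype.val ⁻¹' V, continuous_subtype_val.continuousAt.preimage_mem_nhds hV,
    fun y hy => ?_⟩
  obtain ⟨S, h1, h2, h3, h4, h5⟩ := hS y.1 hy y.2
  refine ⟨Subtype.val ⁻¹' S, ?_, h3, h4, fun z hz => hUU (h5 hz)⟩
  rw [← IsInducing.subtypeVal.isPreconnected_image, Subtype.image_preimage_coe,
    inter_eq_right.2 h2]
  exact h1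

end Pool.Agent.Y704.PC
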