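import Mathlib
import Pool.Agent.Y704.PC.Stm
import Pool.Agent.Y704.PC.Sub

/-!
The chain of copies is closed, connected and locally connected.
-/

set_option autoImplicit false

open Set Topology Filter

namespace Pool.Agent.Y704.PC

section

variable {Z : Type} [TopologicalSpace Z] (e o : Z)

/-- the `n`th copy -/
def cemb (n : ℕ) (p : Z) : ℕ → Z := fun k => if k < n then e else if k = n then p else o

theorem continuous_cemb (n : ℕ) : Continuous (cemb e o n) := by
  refine continuous_pi fun k => ?_
  unfold cemb
  by_cases h1 : k < n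
  · simp only [h1, if_true]; exact continuous_const
  · by_cases h2 : k = n
    · simp only [h2, lt_irrefl, if_false, if_true]; exact continuous_id
    · simp only [h1, h2, if_false]; exact continuous_const

theorem cemb_mem (n : ℕ) (p : Z) : cemb e o n p ∈ chain e o := by
  intro j k hjk
  unfold cemb
  by_cases h1 : j < n
  · left; simp [h1]
  · right
    have h2 : ¬ k < n := by omega
    have h3 : ¬ k = n := by omega
    simp [h2, h3]

theorem cemb_succ (n : ℕ) : cemb e o (n + 1) o = cemb e o n e := by
  funext k
  unfold cemb
  rcases lt_trichotomy k n with h | h | h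
  · have : k < n + 1 := by omega
    simp [h, this]
  · subst h
    simp
  · have h1 : ¬ k < n + 1 := by omega
    have h2 : ¬ k < n := by omega
    have h3 : ¬ k = n := by omega
    simp [h1, h2, h3]

variable {e o}

theorem eq_cemb {x : ℕ → Z} {k : ℕ} (h1 : ∀ j < k, x j = e) (h2 : ∀ j, k < j → x j = o) :
    x = cemb e o k (x k) := by
  funext j
  unfold cemb
  rcases lt_trichotomy j k with h | h | h
  · simp [h, h1 j h]
  · subst h; simp
  · have h3 : ¬ j < k := by omega
    have h4 : ¬ j = k := by omega
    simp [h3, h4, h2 j h]

theorem isClosed_chain [T2Space Z] : IsClosed (chain e o) := by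
  unfold chain
  simp only [ofPred_forall]
  refine isClosed_iInter fun j => isClosed_iInter fun k => isClosed_iInter fun _ => ?_
  exact (isClosed_eq (continuous_apply j) continuous_const).union
    (isClosed_eq (continuous_apply k) continuous_const)

theorem isConnected_chain [ConnectedSpace Z] : IsConnected (chain e o) := by
  have hn : ∀ n, IsConnected (range (cemb e o n)) := fun n =>
    isConnected_range (continuous_cemb e o n)
  have hU : IsConnected (⋃ n, range (cemb e o n)) := by
    refine IsConnected.iUnion_of_chain hn fun n => ?_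
    exact ⟨cemb e o n e, ⟨e, rfl⟩, ⟨o, cemb_succ e o n⟩⟩
  refine hU.subset_closure ?_ ?_
  · exact iUnion_subset fun n => by
      rintro _ ⟨p, rfl⟩
      exact cemb_mem e o n p
  · intro x hx
    by_cases h : ∀ k, x k = e
    · have hx' : x = fun _ => e := funext h
      rw [hx']
      have ht : Tendsto (fun n => cemb e o n e) atTop (𝓝 (fun _ : ℕ => e)) := by
        rw [tendsto_pi_nhds]
        intro k
        refine tendsto_const_nhds.congr' ?_
        filter_upwards [eventually_gt_atTop k] with n hn
        simp [cemb, hn]
      exact mem_closure_of_tendsto ht (Eventually.of_forall fun n =>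
        mem_iUnion.2 ⟨n, e, rfl⟩)
    · apply subset_closure
      push Not at h
      classical
      refine mem_iUnion.2 ⟨Nat.find h, x (Nat.find h), (eq_cemb (fun j hj => ?_)
        fun j hj => ?_).symm⟩
      · have := Nat.find_min h hj
        push Not at this
        exact this
      · rcases hx _ _ hj with h' | h'
        · exact absurd h' (Nat.find_spec h)
        · exact h'

/-- the shift -/
def shift (e : Z) (N : ℕ) (z : ℕ → Z) : ℕ → Z := fun k => if k < N then e else z (k - N)

theorem continuous_shift (N : ℕ) : Continuous (shift e N) := by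
  refine continuous_pi fun k => ?_
  unfold shift
  by_cases h1 : k < N
  · simp only [h1, if_true]; exact continuous_const
  · simp only [h1, if_false]; exact continuous_apply _

theorem shift_mem {z : ℕ → Z} (hz : z ∈ chain e o) (N : ℕ) : shift e N z ∈ chain e o := by
  intro j k hjk
  unfold shift
  by_cases h1 : j < N
  · left; simp [h1]
  · have h2 : ¬ k < N := by omega
    simp only [h1, h2, if_false]
    exact hz _ _ (by omega)

end

theorem t_chain : StChain := by
  intro Z _ _ _ _ e o heo
  refine ⟨isClosed_chain, isConnected_iff_connectedSpace.1 isConnected_chain, ?_⟩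
  refine lc_subtype fun x hx U hU => ?_
  by_cases h : ∀ k, x k = e
  · have hx' : x = fun _ => e := funext h
    -- a basic neighbourhood
    obtain ⟨N, hN⟩ : ∃ N : ℕ, ∀ z : ℕ → Z, (∀ j < N, z j = e) → z ∈ U := by
      rw [nhds_pi, Filter.mem_pi'] at hU
      obtain ⟨I, t, ht, hI⟩ := hU
      refine ⟨I.sup id + 1, fun z hz => hI fun i hi => ?_⟩
      have h1 : i ≤ I.sup id := Finset.le_sup (f := id) hi
      rw [hz i (by omega), ← h i]
      exact mem_of_mem_nhds (ht i)
    refine ⟨{y | ∀ j ∈ Finset.range (N + 1), y j ≠ o}, ?_, fun y hy hyc => ?_⟩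
    · have : {y : ℕ → Z | ∀ j ∈ Finset.range (N + 1), y j ≠ o} =
          ⋂ j ∈ Finset.range (N + 1), {y : ℕ → Z | y j ≠ o} := by
        ext y; simp
      rw [this, Filter.biInter_finset_mem]
      intro j _
      refine (isOpen_ne_fun (continuous_apply j) continuous_const).mem_nhds ?_
      show x j ≠ o
      rw [h j]
      exact heo
    · have hye : ∀ j < N, y j = e := by
        intro j hj
        rcases hyc j N hj with h1 | h1
        · exact h1
        · exact absurd h1 (hy N (Finset.mem_range.2 (by omega)))
      refine ⟨shift e N '' chain e o, isConnected_chain.isPreconnected.image _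
        (continuous_shift N).continuousOn, ?_, ⟨x, hx, ?_⟩, ⟨fun k => y (k + N), ?_, ?_⟩, ?_⟩
      · rintro _ ⟨z, hz, rfl⟩
        exact shift_mem hz N
      · rw [hx']
        funext k
        simp [shift]
      · intro j k hjk
        exact hyc _ _ (by omega)
      · funext k
        unfold shift
        by_cases hk : k < N
        · simp [hk, hye k hk]
        · simp only [hk, if_false]
          rw [Nat.sub_add_cancel (by omega)]
      · rintro _ ⟨z, hz, rfl⟩
        refine hN _ fun j hj => ?_
        simp [shift, hj]
  · push Not at h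
    classical
    obtain ⟨k, hk, hkmin⟩ : ∃ k, x k ≠ e ∧ ∀ j < k, x j = e := by
      refine ⟨Nat.find h, Nat.find_spec h, fun j hj => ?_⟩
      have := Nat.find_min h hj
      push Not at this
      exact this
    have hkmax : ∀ j, k < j → x j = o := fun j hj => by
      rcases hx k j hj with h' | h'
      · exact absurd h' hk
      · exact h'
    have hxk : x = cemb e o k (x k) := eq_cemb hkmin hkmax
    -- preconnected neighbourhoods
    have hnb : ∀ (n : ℕ) (p : Z), cemb e o n p ∈ interior U → ∃ A ∈ 𝓝 p, IsPreconnected A ∧
        cemb e o n '' A ⊆ U := by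
      intro n p hp
      have h1 : cemb e o n ⁻¹' U ∈ 𝓝 p :=
        (continuous_cemb e o n).continuousAt.preimage_mem_nhds (mem_interior_iff_mem_nhds.1 hp)
      obtain ⟨A, hA, hA2, hA3⟩ := (locallyConnectedSpace_iff_connected_subsets.1 inferInstance)
        p _ h1
      exact ⟨A, hA, hA2, image_subset_iff.2 hA3⟩
    have hxU : x ∈ interior U := mem_interior_iff_mem_nhds.2 hU
    obtain ⟨A, hA, hA2, hA3⟩ := hnb k (x k) (by rw [← hxk]; exact hxU)
    have hAsub : cemb e o k '' A ⊆ chain e o := by
      rintro _ ⟨p, _, rfl⟩
      exact cemb_mem e o k p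
    have hyA : ∀ y ∈ chain e o, y k ∈ A → y k ≠ e → (∀ j < k, y j = e) → ∃ S : Set (ℕ → Z),
        IsPreconnected S ∧ S ⊆ chain e o ∧ x ∈ S ∧ y ∈ S ∧ S ⊆ U := by
      intro y hy h1 h2 h3
      refine ⟨cemb e o k '' A, hA2.image _ (continuous_cemb e o k).continuousOn, hAsub,
        ⟨x k, mem_of_mem_nhds hA, hxk.symm⟩, ⟨y k, h1, (eq_cemb h3 fun j hj => ?_).symm⟩, hA3⟩
      rcases hy k j hj with h' | h'
      · exact absurd h' h2
      · exact h'
    have hVA : {y : ℕ → Z | y k ∈ A ∧ y k ≠ e} ∈ 𝓝 x := by
      refine Filter.inter_mem ?_ ?_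
      · exact (continuous_apply k).continuousAt.preimage_mem_nhds hA
      · exact (isOpen_ne_fun (continuous_apply k) continuous_const).mem_nhds hk
    by_cases hko : x k = o
    · rcases Nat.eq_zero_or_pos k with h0 | h0
      · refine ⟨_, hVA, fun y hy hyc => hyA y hyc hy.1 hy.2 fun j hj => by omega⟩
      · obtain ⟨m, rfl⟩ : ∃ m, k = m + 1 := ⟨k - 1, by omega⟩
        have hxm : x = cemb e o m e := by
          rw [hxk, hko, cemb_succ]
        obtain ⟨B, hB, hB2, hB3⟩ := hnb m e (by rw [← hxm]; exact hxU)
        have hxme : x m = e := hkmin m (Nat.lt_succ_self m)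
        refine ⟨{y : ℕ → Z | y (m + 1) ∈ A ∧ y (m + 1) ≠ e} ∩ {y | y m ∈ B ∧ y m ≠ o},
          Filter.inter_mem hVA (Filter.inter_mem ?_ ?_), ?_⟩
        · refine (continuous_apply m).continuousAt.preimage_mem_nhds ?_
          rw [hxme]
          exact hB
        · refine (isOpen_ne_fun (continuous_apply m) continuous_const).mem_nhds ?_
          show x m ≠ o
          rw [hxme]
          exact heo
        · rintro y ⟨⟨h1, h2⟩, h3, h4⟩ hyc
          have h5 : ∀ j < m, y j = e := fun j hj => by
            rcases hyc j m hj with h' | h'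
            · exact h'
            · exact absurd h' h4
          by_cases h6 : y m = e
          · refine hyA y hyc h1 h2 fun j hj => ?_
            rcases Nat.lt_succ_iff_lt_or_eq.1 hj with h7 | h7
            · exact h5 j h7
            · rw [h7]; exact h6
          · refine ⟨cemb e o m '' B, hB2.image _ (continuous_cemb e o m).continuousOn, ?_,
              ⟨e, mem_of_mem_nhds hB, hxm.symm⟩, ⟨y m, h3, (eq_cemb h5 fun j hj => ?_).symm⟩, hB3⟩
            · rintro _ ⟨p, _, rfl⟩
              exact cemb_mem e o m p
            · rcases hyc m j hj with h' | h'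
              · exact absurd h' h6
              · exact h'
    · refine ⟨{y : ℕ → Z | y k ∈ A ∧ y k ≠ e} ∩ {y | y k ≠ o}, Filter.inter_mem hVA
        ((isOpen_ne_fun (continuous_apply k) continuous_const).mem_nhds hko), ?_⟩
      rintro y ⟨⟨h1, h2⟩, h3⟩ hyc
      refine hyA y hyc h1 h2 fun j hj => ?_
      rcases hyc j k hj with h' | h'
      · exact h'
      · exact absurd h' h3

end Pool.Agent.Y704.PC
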