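import Mathlib
import Pool.Agent.Y704.PC.Stm

/-!
Degree of closed paths in the circle.
-/

set_option autoImplicit false

open Set Topology

namespace Pool.Agent.Y704.PC

/-- nearby closed paths have the same degree -/
theorem deg_close {h h' : ℝ → ℂ} (hc : Continuous h) (hc' : Continuous h')
    (hn : ∀ θ, ‖h θ‖ = 1) (hn' : ∀ θ, ‖h' θ‖ = 1)
    (hp : ∀ θ, h (θ + 2 * Real.pi) = h θ) (hp' : ∀ θ, h' (θ + 2 * Real.pi) = h' θ)
    (hd : ∀ θ, dist (h' θ) (h θ) < 1) (H : Deg1 h) : Deg1 h' := by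
  obtain ⟨L, hL, hL1, hL2⟩ := H
  have hne : ∀ θ, h θ ≠ 0 := fun θ h0 => by
    have := hn θ
    rw [h0, norm_zero] at this
    exact zero_ne_one this
  set q : ℝ → ℂ := fun θ => h' θ / h θ with hq
  have hq1 : ∀ θ, ‖q θ‖ = 1 := fun θ => by rw [hq]; simp [hn, hn']
  have hqc : Continuous q := hc'.div hc hne
  have hq2 : ∀ θ, ‖q θ - 1‖ < 1 := by
    intro θ
    have : q θ - 1 = (h' θ - h θ) / h θ := by
      rw [hq]
      field_simp [hne θ]
    rw [this, norm_div, hn, div_one, ← dist_eq_norm]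
    exact hd θ
  have hslit : ∀ θ, q θ ∈ Complex.slitPlane := by
    intro θ
    left
    have h1 := Complex.abs_re_le_norm (q θ - 1)
    have h2 := (abs_le.1 (h1.trans (hq2 θ).le)).1
    have h3 := (abs_lt.1 (h1.trans_lt (hq2 θ))).1
    rw [Complex.sub_re, Complex.one_re] at h3
    linarith
  have hexp : ∀ θ, Complex.exp (Complex.arg (q θ) * Complex.I) = q θ := by
    intro θ
    have := Complex.norm_mul_exp_arg_mul_I (q θ)
    rw [hq1 θ] at this
    simpa using this
  refine ⟨fun θ => L θ + Complex.arg (q θ), ?_, ?_, ?_⟩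
  · refine hL.add ?_
    rw [continuous_iff_continuousAt]
    intro θ
    exact (Complex.continuousAt_arg (hslit θ)).comp hqc.continuousAt
  · intro θ
    push_cast
    rw [add_mul, Complex.exp_add, hexp, ← hL1, hq]
    show h' θ = h θ * (h' θ / h θ)
    field_simp [hne θ]
  · intro θ
    have : q (θ + 2 * Real.pi) = q θ := by
      show h' (θ + 2 * Real.pi) / h (θ + 2 * Real.pi) = h' θ / h θ
      rw [hp, hp']
    show L (θ + 2 * Real.pi) + Complex.arg (q (θ + 2 * Real.pi)) =
      L θ + Complex.arg (q θ) + 2 * Real.pi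
    rw [this, hL2]
    ring

theorem t_deg : StDeg := by
  intro S _ _ H hH hn hp s₀ s₁ h0
  have key : ∀ s : S, ∀ᶠ s' in 𝓝 s, ∀ θ, dist (H (s', θ)) (H (s, θ)) < 1 := by
    intro s
    have hopen : IsOpen {p : S × ℝ | dist (H p) (H (s, p.2)) < 1} :=
      isOpen_lt (hH.dist (hH.comp (continuous_const.prodMk continuous_snd))) continuous_const
    have hsub : ({s} : Set S) ×ˢ Icc 0 (2 * Real.pi) ⊆
        {p : S × ℝ | dist (H p) (H (s, p.2)) < 1} := by
      rintro ⟨s', θ⟩ ⟨hs', -⟩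
      have hs'' : s' = s := hs'
      show dist (H (s', θ)) (H (s, θ)) < 1
      rw [hs'', dist_self]
      exact one_pos
    obtain ⟨u, v, hu, -, hsu, hv, huv⟩ := generalized_tube_lemma isCompact_singleton
      isCompact_Icc hopen hsub
    filter_upwards [hu.mem_nhds (hsu rfl)] with s' hs' θ
    have hper : ∀ s'' : S, Function.Periodic (fun θ => H (s'', θ)) (2 * Real.pi) :=
      fun s'' θ => hp s'' θ
    have hper2 : Function.Periodic (fun θ => dist (H (s', θ)) (H (s, θ))) (2 * Real.pi) := by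
      intro θ
      show dist (H (s', θ + 2 * Real.pi)) (H (s, θ + 2 * Real.pi)) = dist (H (s', θ)) (H (s, θ))
      rw [hp, hp]
    obtain ⟨θ', hθ', he⟩ := hper2.exists_mem_Ico₀ Real.two_pi_pos θ
    have h1 : dist (H (s', θ')) (H (s, θ')) < 1 := huv ⟨hs', hv ⟨hθ'.1, hθ'.2.le⟩⟩
    have he' : dist (H (s', θ)) (H (s, θ)) = dist (H (s', θ')) (H (s, θ')) := he
    rw [he']
    exact h1
  have hcs : ∀ s : S, Continuous fun θ => H (s, θ) := fun s =>
    hH.comp (continuous_const.prodMk continuous_id)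
  have hclopen : IsClopen {s : S | Deg1 fun θ => H (s, θ)} := by
    constructor
    · rw [← isOpen_compl_iff, isOpen_iff_mem_nhds]
      intro s hs
      filter_upwards [key s] with s' hs' hs''
      apply hs
      refine deg_close (hcs s') (hcs s) (hn s') (hn s) (hp s') (hp s) (fun θ => ?_) hs''
      rw [dist_comm]
      exact hs' θ
    · rw [isOpen_iff_mem_nhds]
      intro s hs
      filter_upwards [key s] with s' hs'
      exact deg_close (hcs s) (hcs s') (hn s) (hn s') (hp s) (hp s') hs' hs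
  have huniv := hclopen.eq_univ ⟨s₀, h0⟩
  have : s₁ ∈ {s : S | Deg1 fun θ => H (s, θ)} := by rw [huniv]; trivial
  exact this

theorem t_surj : StSurj := by
  rintro h ⟨L, hL, hL1, hL2⟩ ζ hζ
  have hL0 : L (2 * Real.pi) = L 0 + 2 * Real.pi := by
    have := hL2 0
    rwa [zero_add] at this
  set b := toIcoMod Real.two_pi_pos (L 0) (Complex.arg ζ) with hb
  have hbm := toIcoMod_mem_Ico Real.two_pi_pos (L 0) (Complex.arg ζ)
  rw [← hb] at hbm
  obtain ⟨θ, -, hθ⟩ := intermediate_value_Icc Real.two_pi_pos.le hL.continuousOn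
    (show b ∈ Icc (L 0) (L (2 * Real.pi)) from ⟨hbm.1, by rw [hL0]; exact hbm.2.le⟩)
  refine ⟨θ, ?_⟩
  rw [hL1, hθ]
  have h1 : b = Complex.arg ζ - toIcoDiv Real.two_pi_pos (L 0) (Complex.arg ζ) • (2 * Real.pi) := by
    rw [hb, toIcoMod]
  have h2 := Complex.norm_mul_exp_arg_mul_I ζ
  rw [hζ] at h2
  have h3 : Complex.exp (Complex.arg ζ * Complex.I) = ζ := by simpa using h2
  rw [h1, ← h3]
  refine Complex.exp_eq_exp_iff_exists_int.2
    ⟨-(toIcoDiv Real.two_pi_pos (L 0) (Complex.arg ζ)), ?_⟩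
  rw [h3]
  rw [zsmul_eq_mul]
  push_cast
  ring

end Pool.Agent.Y704.PC
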